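import Pool.Agent.Results.MP_674062_gt.CounterexampleUnderCH
import Pool.Agent.Helper896.ForceCH

/-!
# It is consistent with ZFC that Split(Λ,Λ) is not preserved by countable unions

First half: there is a forcing notion all of whose conditions force, over any ground model, that
`ω₁` is preserved and that the continuum hypothesis holds.  Second half: the continuum hypothesis
implies that there are countably many sets of reals (two of them suffice) with the property
Split(Λ,Λ) whose union does not have this property.  By the forcing theorem such sets exist in the
extension.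
-/

set_option autoImplicit false

namespace Pool.Agent.Results.MP_674062_gt.ConsistentlyNotAdditive

open Cardinal
open Pool.Agent.Results.MP_674062_gt.CounterexampleUnderCH (SplitLL)
open Pool.Agent.Helper896.ForceCH (OmegaOnePreserved CHHolds)

/-- **Main theorem** (no hypothesis).  Some forcing notion forces the continuum hypothesis, and the
continuum hypothesis implies that Split(Λ,Λ) is not preserved by countable unions of sets of
reals. -/
theorem result :
    (∃ (P : Type) (_ : Preorder P), Nonempty P ∧
      ∀ p : P, p ∈ OmegaOnePreserved P ∧ p ∈ CHHolds P) ∧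
    ((𝔠 : Cardinal.{0}) = ℵ₁ →
      ∃ X : ℕ → Set ℝ, (∀ n, SplitLL (X n)) ∧ ¬ SplitLL (⋃ n, X n) ∧
        (⋃ n, X n) = X 0 ∪ X 1) := by
  refine ⟨?_, Pool.Agent.Results.MP_674062_gt.CounterexampleUnderCH.result⟩
  obtain ⟨P, hP, hne, h⟩ := Pool.Agent.Helper896.ForceCH.exists_forcing
  exact ⟨P, hP, hne, fun p => ⟨(h p).1, (h p).2.2⟩⟩

end Pool.Agent.Results.MP_674062_gt.ConsistentlyNotAdditive
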