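import Mathlib

/-!
# Closure of Split(Λ,Λ) under countable unions refutes CH

Assuming CH we build two families `X`, `Y` of infinite subsets of `ℕ` (points of the Cantor space)
such that
* every sequence of open sets which is large on `X` can be split on `X`, and the same for `Y`;
* for every `C ⊆ ℕ` some member of `X` is contained in `C` or some member of `Y` is contained in the
  complement of `C`.
The second property says that the large cover `O n = {a : n ∈ a}` of `X ∪ Y` cannot be split.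

The construction has length `ω₁`.  At every stage there are countable sets `A`, `B` (the points
chosen so far) and Gδ sets `G ⊇ A`, `H ⊇ B` (all further points have to be taken from them) with the
invariant: for every `C`, either `G` is dense in the compact set `P(C)` of all subsets of `C`, or `H`
is dense in `P(ℕ \ C)`.  The set of all `C` such that `H` is not dense in `P(ℕ \ C)` is σ-compact.
Hence, if all points of `G` lie in infinitely many `U j`, then for every sufficiently generic `S ⊆ ℕ`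
the set of all `g ∈ G` whose index set `{j : g ∈ U j}` is split by `S` still satisfies the invariant
together with `H`.
-/

set_option autoImplicit false

open Set TopologicalSpace Cardinal Ordinal

namespace Pool.Agent.Results.MP_674062_gt.CounterexampleUnderCH

/-- A large open cover of the set of reals `X`: a family of open subsets of `X`, not containing `X`
itself, such that every point of `X` lies in infinitely many members of the family. -/
def IsLargeCover {X : Set ℝ} (𝒰 : Set (Set X)) : Prop :=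
  (∀ U ∈ 𝒰, IsOpen U) ∧ Set.univ ∉ 𝒰 ∧ ∀ x : X, {U ∈ 𝒰 | x ∈ U}.Infinite

/-- The property Split(Λ,Λ) of sets of reals: every large open cover contains two disjoint
subfamilies, each of which is itself a large open cover. -/
def SplitLL (X : Set ℝ) : Prop :=
  ∀ 𝒰 : Set (Set X), IsLargeCover 𝒰 →
    ∃ 𝒱 𝒲 : Set (Set X), 𝒱 ⊆ 𝒰 ∧ 𝒲 ⊆ 𝒰 ∧ Disjoint 𝒱 𝒲 ∧ IsLargeCover 𝒱 ∧ IsLargeCover 𝒲

theorem finite_subset_of_mono {α : Type*} {W : ℕ → Set α} (hW : Monotone W) {S : Set α}
    (hS : S.Finite) (h : S ⊆ ⋃ n, W n) : ∃ n, S ⊆ W n := by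
  induction S, hS using Set.Finite.induction_on with
  | empty => exact ⟨0, empty_subset _⟩
  | @insert a S _ _ ih =>
    obtain ⟨n, hn⟩ := ih ((subset_insert a S).trans h)
    obtain ⟨m, hm⟩ := mem_iUnion.1 (h (mem_insert a S))
    refine ⟨max n m, insert_subset (hW (le_max_right _ _) hm) (hn.trans (hW (le_max_left _ _)))⟩

/-- In a second countable space every large open cover contains a countable one. -/
theorem exists_countable_large {Z : Set ℝ}
    {𝒰 : Set (Set Z)} (hU : IsLargeCover 𝒰) :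
    ∃ 𝒱 : Set (Set Z), 𝒱 ⊆ 𝒰 ∧ 𝒱.Countable ∧ IsLargeCover 𝒱 := by
  classical
  obtain ⟨hopen, huniv, hinf⟩ := hU
  have key : ∀ S : Set (Set Z), ∃ T : Set (Set Z), S ⊆ 𝒰 → (T.Countable ∧ T ⊆ S ∧ ⋃₀ T = ⋃₀ S) := by
    intro S
    by_cases hS : S ⊆ 𝒰
    · obtain ⟨T, hT1, hT2, hT3⟩ := TopologicalSpace.isOpen_sUnion_countable S
        (fun s hs => hopen s (hS hs))
      exact ⟨T, fun _ => ⟨hT1, hT2, hT3⟩⟩
    · exact ⟨∅, fun h => absurd h hS⟩
  choose T hT using key
  let W : ℕ → Set (Set Z) := fun n => Nat.rec ∅ (fun _ w => w ∪ T (𝒰 \ w)) n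
  have hW0 : W 0 = ∅ := rfl
  have hWs : ∀ n, W (n + 1) = W n ∪ T (𝒰 \ W n) := fun n => rfl
  have hT' : ∀ n, (T (𝒰 \ W n)).Countable ∧ T (𝒰 \ W n) ⊆ 𝒰 \ W n ∧
      ⋃₀ T (𝒰 \ W n) = ⋃₀ (𝒰 \ W n) := fun n => hT _ sdiff_subset
  have hWsub : ∀ n, W n ⊆ 𝒰 := by
    intro n
    induction n with
    | zero => rw [hW0]; exact empty_subset _
    | succ n ih => rw [hWs]; exact union_subset ih ((hT' n).2.1.trans sdiff_subset)
  have hWc : ∀ n, (W n).Countable := by
    intro n
    induction n with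
    | zero => rw [hW0]; exact countable_empty
    | succ n ih => rw [hWs]; exact ih.union (hT' n).1
  have hmono : Monotone W := monotone_nat_of_le_succ (fun n => by rw [hWs]; exact subset_union_left)
  refine ⟨⋃ n, W n, iUnion_subset hWsub, countable_iUnion hWc, ?_, ?_, ?_⟩
  · intro U hU
    exact hopen U (iUnion_subset hWsub hU)
  · intro h
    exact huniv (iUnion_subset hWsub h)
  · intro z hfin
    have hex : ∃ n, {U ∈ ⋃ n, W n | z ∈ U} ⊆ W n := by
      refine finite_subset_of_mono hmono hfin ?_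
      rintro U ⟨hU, -⟩
      exact hU
    obtain ⟨n, hn⟩ := hex
    apply hinf z
    refine hfin.subset ?_
    rintro U ⟨hU, hzU⟩
    refine ⟨?_, hzU⟩
    by_contra hcon
    have hUn : U ∈ 𝒰 \ W n := ⟨hU, fun h => hcon (mem_iUnion.2 ⟨n, h⟩)⟩
    have hz : z ∈ ⋃₀ (𝒰 \ W n) := ⟨U, hUn, hzU⟩
    rw [← (hT' n).2.2] at hz
    obtain ⟨V, hV, hzV⟩ := hz
    have hV1 : V ∈ W (n + 1) := by rw [hWs]; exact Or.inr hV
    have : V ∈ W n := hn ⟨mem_iUnion.2 ⟨n + 1, hV1⟩, hzV⟩
    exact ((hT' n).2.1 hV).2 this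



/-- The Cantor space, its points are read as subsets of `ℕ`. -/
abbrev K : Type := ℕ → Bool

theorem exists_cyl_subset {V : Set K} (hV : IsOpen V) {x : K} (hx : x ∈ V) :
    ∃ n : ℕ, ∀ y : K, (∀ m < n, y m = x m) → y ∈ V := by
  have h1 := (PiNat.isTopologicalBasis_cylinders (fun _ : ℕ => Bool)).mem_nhds_iff.1
    (hV.mem_nhds hx)
  obtain ⟨t, ⟨z, n, rfl⟩, hxt, ht⟩ := h1
  refine ⟨n, fun y hy => ht ?_⟩
  intro m hm
  rw [hy m hm]
  exact hxt m hm

theorem isOpen_cyl (x : K) (n : ℕ) : IsOpen {y : K | ∀ m < n, y m = x m} := by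
  have : {y : K | ∀ m < n, y m = x m} = PiNat.cylinder x n := rfl
  rw [this]
  exact PiNat.isOpen_cylinder _ x n

/-- `G` is dense in the compact set of all points below `C`. -/
def DenseBelow (G : Set K) (C : K) : Prop :=
  ∀ a : K, a ≤ C → ∀ n : ℕ, ∃ g ∈ G, g ≤ C ∧ ∀ m < n, g m = a m

theorem isClosed_below (C : K) : IsClosed {a : K | a ≤ C} := by
  have : {a : K | a ≤ C} = ⋂ n, {a : K | a n ≤ C n} := by
    ext a
    simp [Pi.le_def]
  rw [this]
  refine isClosed_iInter fun n => ?_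
  exact (isClosed_discrete {b : Bool | b ≤ C n}).preimage (continuous_apply (A := fun _ => Bool) n)

theorem denseBelow_iff (G : Set K) (C : K) :
    DenseBelow G C ↔ Dense ((Subtype.val : {a : K // a ≤ C} → K) ⁻¹' G) := by
  constructor
  · intro h
    rw [dense_iff_inter_open]
    rintro U ⟨V, hV, rfl⟩ ⟨x, hx⟩
    obtain ⟨n, hn⟩ := exists_cyl_subset hV hx
    obtain ⟨g, hg, hgC, hgm⟩ := h x.1 x.2 n
    exact ⟨⟨g, hgC⟩, hn g hgm, hg⟩
  · intro h a ha n
    have h1 := dense_iff_inter_open.1 h (Subtype.val ⁻¹' {y : K | ∀ m < n, y m = a m})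
      ((isOpen_cyl a n).preimage continuous_subtype_val) ⟨⟨a, ha⟩, fun m _ => rfl⟩
    obtain ⟨⟨g, hgC⟩, hg1, hg2⟩ := h1
    exact ⟨g, hg2, hgC, hg1⟩

/-- Baire category below `C`. -/
theorem denseBelow_iInter {ι : Type*} [Countable ι] {G : ι → Set K} (hG : ∀ i, IsGδ (G i)) {C : K}
    (h : ∀ i, DenseBelow (G i) C) : DenseBelow (⋂ i, G i) C := by
  have : CompactSpace {a : K // a ≤ C} :=
    isCompact_iff_compactSpace.1 (isClosed_below C).isCompact
  rw [denseBelow_iff, preimage_iInter]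
  exact dense_iInter_of_Gδ (fun i => (hG i).preimage continuous_subtype_val)
    fun i => (denseBelow_iff _ _).1 (h i)

theorem DenseBelow.mono {G G' : Set K} {C : K} (h : DenseBelow G C) (hs : G ⊆ G') :
    DenseBelow G' C := fun a ha n => by
  obtain ⟨g, hg, hg2⟩ := h a ha n
  exact ⟨g, hs hg, hg2⟩

/-- Invariant: `G` and `H` cannot be separated. -/
def Inv (G H : Set K) : Prop := ∀ C : K, DenseBelow G C ∨ DenseBelow H Cᶜ

theorem Inv.symm {G H : Set K} (h : Inv G H) : Inv H G := by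
  intro C
  rcases h Cᶜ with h1 | h1
  · exact Or.inr h1
  · left
    simpa using h1

theorem bool_le_compl {C : K} : Cᶜᶜ = C := compl_compl C

/-- Invariant passes to decreasing intersections. -/
theorem inv_iInter {G H : ℕ → Set K} (hG : ∀ i, IsGδ (G i)) (hH : ∀ i, IsGδ (H i))
    (hinv : ∀ i, Inv (G i) (H i))
    (hch : ∀ i j, (G i ⊆ G j ∧ H i ⊆ H j) ∨ (G j ⊆ G i ∧ H j ⊆ H i)) :
    Inv (⋂ i, G i) (⋂ i, H i) := by
  intro C
  by_cases h1 : ∀ i, DenseBelow (G i) C
  · exact Or.inl (denseBelow_iInter hG h1)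
  by_cases h2 : ∀ i, DenseBelow (H i) Cᶜ
  · exact Or.inr (denseBelow_iInter hH h2)
  push Not at h1 h2
  obtain ⟨i, hi⟩ := h1
  obtain ⟨j, hj⟩ := h2
  exfalso
  rcases hch i j with ⟨h3, h4⟩ | ⟨h3, h4⟩
  · rcases hinv i C with h5 | h5
    · exact hi h5
    · exact hj (h5.mono h4)
  · rcases hinv j C with h5 | h5
    · exact hi (h5.mono h3)
    · exact hj h5

/-- A recursion producing disjoint finite sets: every requirement can be met both by a set and by
its complement. -/
theorem exists_generic {ι : Type*} [Countable ι] (P : ι → Set ℕ → Prop)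
    (mono : ∀ i s t, s ⊆ t → P i s → P i t)
    (h : ∀ i (l : ℕ), ∃ J : Finset ℕ, (∀ j ∈ J, l ≤ j) ∧ P i ↑J) :
    ∃ S : Set ℕ, ∀ i, P i S ∧ P i Sᶜ := by
  classical
  rcases isEmpty_or_nonempty ι with hι | hι
  · exact ⟨∅, fun i => (hι.false i).elim⟩
  obtain ⟨e, he⟩ := exists_surjective_nat ι
  choose J hJ1 hJ2 using h
  -- the recursion: `L k` is the first free place
  let L : ℕ → ℕ := fun k => Nat.rec 0 (fun k l => max l (((J (e (k / 2)) l).sup id) + 1)) k
  have hLs : ∀ k, L (k + 1) = max (L k) (((J (e (k / 2)) (L k)).sup id) + 1) := fun k => rfl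
  have hLmono : Monotone L := monotone_nat_of_le_succ fun k => by rw [hLs]; exact le_max_left _ _
  have hlt : ∀ k, ∀ j ∈ J (e (k / 2)) (L k), j < L (k + 1) := by
    intro k j hj
    rw [hLs]
    exact lt_of_lt_of_le (Nat.lt_succ_of_le (Finset.le_sup (f := id) hj)) (le_max_right _ _)
  have hdisj : ∀ k k' j, j ∈ J (e (k / 2)) (L k) → j ∈ J (e (k' / 2)) (L k') → k = k' := by
    intro k k' j h1 h2
    rcases lt_trichotomy k k' with h3 | h3 | h3
    · exact absurd (lt_of_lt_of_le (hlt k j h1) (hLmono h3)) (not_lt.2 (hJ1 _ _ _ h2))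
    · exact h3
    · exact absurd (lt_of_lt_of_le (hlt k' j h2) (hLmono h3)) (not_lt.2 (hJ1 _ _ _ h1))
  refine ⟨⋃ k, (J (e ((2 * k) / 2)) (L (2 * k)) : Set ℕ), fun i => ?_⟩
  obtain ⟨k, rfl⟩ := he i
  constructor
  · refine mono _ _ _ (subset_iUnion _ k) ?_
    have : 2 * k / 2 = k := by omega
    rw [this]
    exact hJ2 (e k) (L (2 * k))
  · refine mono _ (J (e ((2 * k + 1) / 2)) (L (2 * k + 1)) : Set ℕ) _ ?_ ?_
    · intro j hj hj'
      obtain ⟨k', hk'⟩ := mem_iUnion.1 hj'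
      have := hdisj (2 * k + 1) (2 * k') j hj hk'
      omega
    · have : (2 * k + 1) / 2 = k := by omega
      rw [this]
      exact hJ2 (e k) (L (2 * k + 1))

/-- Agreement with a finite word. -/
def Agrees (g : K) (q : List Bool) : Prop := ∀ i < q.length, g i = q.getD i false

/-- Compactness: finitely many indices suffice for all `C` in a compact set. -/
theorem exists_finite_front {K₀ G : Set K} (hK₀ : IsCompact K₀) {U : ℕ → Set K}
    (hU : ∀ j, IsOpen (U j)) (hGU : ∀ g ∈ G, {j | g ∈ U j}.Infinite)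
    (hd : ∀ C ∈ K₀, DenseBelow G C) (q : List Bool) (l : ℕ) :
    ∃ J : Finset ℕ, (∀ j ∈ J, l ≤ j) ∧ ∀ C ∈ K₀,
      (∀ i < q.length, q.getD i false ≤ C i) → ∃ j ∈ J, ∃ g ∈ G, g ≤ C ∧ Agrees g q ∧ g ∈ U j := by
  classical
  have key : ∀ C : K, ∃ (N : ℕ) (j : ℕ), l ≤ j ∧ (C ∈ K₀ → ∀ C' ∈ K₀, (∀ i < N, C' i = C i) →
      (∀ i < q.length, q.getD i false ≤ C' i) → ∃ g ∈ G, g ≤ C' ∧ Agrees g q ∧ g ∈ U j) := by
    intro C
    by_cases hC : C ∈ K₀
    swap
    · exact ⟨0, l, le_rfl, fun h => absurd h hC⟩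
    by_cases hq : ∀ i < q.length, q.getD i false ≤ C i
    swap
    · refine ⟨q.length, l, le_rfl, fun _ C' _ h1 h2 => absurd ?_ hq⟩
      intro i hi
      rw [← h1 i hi]
      exact h2 i hi
    · let w : K := fun i => if i < q.length then q.getD i false else false
      have hw : w ≤ C := by
        intro i
        by_cases hi : i < q.length
        · simpa only [w, hi, if_true] using hq i hi
        · simp [w, hi]
      obtain ⟨g, hg, hgC, hgw⟩ := hd C hC w hw q.length
      obtain ⟨j, hj1, hj2⟩ := (hGU g hg).exists_gt l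
      obtain ⟨N, hN⟩ := exists_cyl_subset (hU j) hj1
      refine ⟨max N q.length, j, hj2.le, fun _ C' hC' h1 _ => ?_⟩
      let g' : K := fun i => if i < max N q.length then g i else false
      have hg' : g' ≤ C' := by
        intro i
        by_cases hi : i < max N q.length
        · simp only [g', hi, if_true]
          rw [h1 i hi]
          exact hgC i
        · simp only [g', if_neg hi]
          exact Bool.false_le _
      obtain ⟨g2, hg2, hg2C, hg2g⟩ := hd C' hC' g' hg' (max N q.length)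
      have hag : ∀ i < max N q.length, g2 i = g i := by
        intro i hi
        rw [hg2g i hi]
        simp only [g', hi, if_true]
      refine ⟨g2, hg2, hg2C, ?_, hN g2 fun m hm => hag m (lt_of_lt_of_le hm (le_max_left _ _))⟩
      intro i hi
      rw [hag i (lt_of_lt_of_le hi (le_max_right _ _)), hgw i hi]
      simp only [w, hi, if_true]
  choose N j hlj hkey using key
  obtain ⟨t, ht1, ht2⟩ := hK₀.elim_nhds_subcover (fun C => {y : K | ∀ m < N C, y m = C m})
    (fun C _ => (isOpen_cyl C (N C)).mem_nhds fun m _ => rfl)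
  refine ⟨t.image j, ?_, ?_⟩
  · intro i hi
    obtain ⟨C, _, rfl⟩ := Finset.mem_image.1 hi
    exact hlj C
  · intro C' hC' hq
    obtain ⟨C, hC, hCC'⟩ := mem_iUnion₂.1 (ht2 hC')
    obtain ⟨g, hg⟩ := hkey C (ht1 C hC) C' hC' hCC' hq
    exact ⟨j C, Finset.mem_image_of_mem _ hC, g, hg⟩

/-- The set of all `C` such that `H` is not dense below the complement of `C` is a countable union
of compact sets. -/
theorem exists_compact_cover {H : Set K} (hH : IsGδ H) :
    ∃ Z : ℕ × List Bool → Set K, (∀ p, IsCompact (Z p)) ∧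
      (∀ C, ¬ DenseBelow H Cᶜ ↔ ∃ p, C ∈ Z p) := by
  classical
  obtain ⟨W, hW, hWH⟩ := isGδ_iff_eq_iInter_nat.1 hH
  refine ⟨fun p => {C | (∀ i < p.2.length, p.2.getD i false ≤ Cᶜ i) ∧
    ∀ g : K, g ≤ Cᶜ → Agrees g p.2 → g ∉ W p.1}, ?_, ?_⟩
  · rintro ⟨k, q⟩
    refine IsClosed.isCompact ?_
    rw [← isOpen_compl_iff, isOpen_iff_forall_mem_open]
    intro C hC
    by_cases h1 : ∀ i < q.length, q.getD i false ≤ Cᶜ i
    · have h2 : ∃ g : K, g ≤ Cᶜ ∧ Agrees g q ∧ g ∈ W k := by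
        by_contra hcon
        push Not at hcon
        exact hC ⟨h1, hcon⟩
      obtain ⟨g, hg1, hg2, hg3⟩ := h2
      obtain ⟨N, hN⟩ := exists_cyl_subset (hW k) hg3
      refine ⟨{y : K | ∀ m < max N q.length, y m = C m}, ?_, isOpen_cyl C _, fun m _ => rfl⟩
      rintro C' hC' ⟨_, h4⟩
      refine h4 (fun i => if i < max N q.length then g i else false) ?_ ?_ ?_
      · intro i
        by_cases hi : i < max N q.length
        · simp only [hi, if_true]
          have := hg1 i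
          simp only [Pi.compl_apply] at this ⊢
          rw [hC' i hi]
          exact this
        · simp [hi]
      · intro i hi
        have : i < max N q.length := lt_of_lt_of_le hi (le_max_right _ _)
        simp only [this, if_true]
        exact hg2 i hi
      · refine hN _ fun m hm => ?_
        have : m < max N q.length := lt_of_lt_of_le hm (le_max_left _ _)
        simp only [this, if_true]
    · refine ⟨{y : K | ∀ m < q.length, y m = C m}, ?_, isOpen_cyl C _, fun m _ => rfl⟩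
      rintro C' hC' ⟨h3, _⟩
      refine h1 fun i hi => ?_
      have := h3 i hi
      simp only [Pi.compl_apply] at this ⊢
      rw [← hC' i hi]
      exact this
  · intro C
    constructor
    · intro h
      have h1 : ∃ k, ¬ DenseBelow (W k) Cᶜ := by
        by_contra hcon
        push Not at hcon
        apply h
        rw [hWH]
        exact denseBelow_iInter (fun i => (hW i).isGδ) hcon
      obtain ⟨k, hk⟩ := h1
      unfold DenseBelow at hk
      push Not at hk
      obtain ⟨a, ha, n, hn⟩ := hk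
      have hlen : (List.ofFn fun i : Fin n => a i).length = n := List.length_ofFn
      have hget : ∀ i < n, (List.ofFn fun i : Fin n => a i).getD i false = a i := by
        intro i hi
        simp [List.getD_eq_getElem?_getD, hi]
      refine ⟨(k, List.ofFn fun i : Fin n => a i), ?_, ?_⟩
      · intro i hi
        simp only at hi ⊢
        rw [hlen] at hi
        rw [hget i hi]
        exact ha i
      · intro g hg1 hg2 hg3
        obtain ⟨m, hm, hne⟩ := hn g hg3 hg1
        apply hne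
        have := hg2 m (by rw [hlen]; exact hm)
        rw [this, hget m hm]
    · rintro ⟨⟨k, q⟩, h1, h2⟩ h
      let w : K := fun i => if i < q.length then q.getD i false else false
      have hw : w ≤ Cᶜ := by
        intro i
        by_cases hi : i < q.length
        · simpa only [w, hi, if_true] using h1 i hi
        · simp [w, hi]
      obtain ⟨g, hg, hgC, hgw⟩ := h w hw q.length
      refine h2 g hgC ?_ ?_
      · intro i hi
        rw [hgw i hi]
        simp only [w, hi, if_true]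
      · rw [hWH] at hg
        exact mem_iInter.1 hg k

/-- The one-step lemma: a sequence of open sets large on `G` can be split on a smaller `G'`. -/
theorem exists_split_step {G H A : Set K} (hG : IsGδ G) (hH : IsGδ H) (hinv : Inv G H)
    (hA : A.Countable) (hAG : A ⊆ G) {U : ℕ → Set K} (hU : ∀ j, IsOpen (U j))
    (hGU : ∀ g ∈ G, {j | g ∈ U j}.Infinite) :
    ∃ S : Set ℕ, ∃ G' ⊆ G, IsGδ G' ∧ A ⊆ G' ∧ Inv G' H ∧
      ∀ g ∈ G', {j ∈ S | g ∈ U j}.Infinite ∧ {j ∈ Sᶜ | g ∈ U j}.Infinite := by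
  classical
  obtain ⟨Z, hZc, hZ⟩ := exists_compact_cover hH
  have hd : ∀ p, ∀ C ∈ Z p, DenseBelow G C := by
    intro p C hC
    exact (hinv C).resolve_right ((hZ C).2 ⟨p, hC⟩)
  have : Countable A := hA.to_subtype
  let P : ((ℕ × List Bool) × List Bool × ℕ) ⊕ (A × ℕ) → Set ℕ → Prop := fun i T =>
    match i with
    | Sum.inl (p, q, m) => ∀ C ∈ Z p, (∀ i < q.length, q.getD i false ≤ C i) →
        ∃ j ∈ T, m ≤ j ∧ ∃ g ∈ G, g ≤ C ∧ Agrees g q ∧ g ∈ U j
    | Sum.inr (a, m) => ∃ j ∈ T, m ≤ j ∧ a.1 ∈ U j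
  obtain ⟨S, hS⟩ := exists_generic P (by
    rintro (⟨p, q, m⟩ | ⟨a, m⟩) s t hst h
    · intro C hC hq
      obtain ⟨j, hj, h2⟩ := h C hC hq
      exact ⟨j, hst hj, h2⟩
    · obtain ⟨j, hj, h2⟩ := h
      exact ⟨j, hst hj, h2⟩) (by
    rintro (⟨p, q, m⟩ | ⟨a, m⟩) l
    · obtain ⟨J, hJ1, hJ2⟩ := exists_finite_front (hZc p) hU hGU (hd p) q (max l m)
      refine ⟨J, fun j hj => (le_max_left _ _).trans (hJ1 j hj), fun C hC hq => ?_⟩
      obtain ⟨j, hj, h2⟩ := hJ2 C hC hq
      exact ⟨j, hj, (le_max_right _ _).trans (hJ1 j hj), h2⟩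
    · obtain ⟨j, hj1, hj2⟩ := (hGU a.1 (hAG a.2)).exists_gt (max l m)
      refine ⟨{j}, ?_, j, by simp, (le_max_right _ _).trans hj2.le, hj1⟩
      intro j' hj'
      rw [Finset.mem_singleton] at hj'
      rw [hj']
      exact (le_max_left _ _).trans hj2.le)
  -- the relevant dense sets
  let D : Bool × ℕ → Set K := fun i =>
    G ∩ ⋃ j ∈ {j | i.2 ≤ j ∧ (if i.1 then j ∈ S else j ∈ Sᶜ)}, U j
  have hDg : ∀ i, IsGδ (D i) := fun i =>
    hG.inter (isOpen_biUnion fun j _ => hU j).isGδ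
  have hDd : ∀ p, ∀ C ∈ Z p, ∀ i, DenseBelow (D i) C := by
    rintro p C hC ⟨b, m⟩ a ha n
    have hlen : (List.ofFn fun i : Fin n => a i).length = n := List.length_ofFn
    have hget : ∀ i < n, (List.ofFn fun i : Fin n => a i).getD i false = a i := by
      intro i hi
      simp [List.getD_eq_getElem?_getD, hi]
    have hcomp : ∀ i < (List.ofFn fun i : Fin n => a i).length,
        (List.ofFn fun i : Fin n => a i).getD i false ≤ C i := by
      intro i hi
      rw [hlen] at hi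
      rw [hget i hi]
      exact ha i
    have h1 := hS (Sum.inl (p, List.ofFn fun i : Fin n => a i, m))
    have h2 : ∃ j ∈ (if b then S else Sᶜ), m ≤ j ∧ ∃ g ∈ G, g ≤ C ∧
        Agrees g (List.ofFn fun i : Fin n => a i) ∧ g ∈ U j := by
      cases b
      · exact h1.2 C hC hcomp
      · exact h1.1 C hC hcomp
    obtain ⟨j, hj, hmj, g, hg, hgC, hga, hgU⟩ := h2
    refine ⟨g, ⟨hg, ?_⟩, hgC, fun i hi => ?_⟩
    · refine mem_iUnion₂.2 ⟨j, ⟨hmj, ?_⟩, hgU⟩
      cases b
      · simpa using hj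
      · simpa using hj
    · rw [hga i (by rw [hlen]; exact hi), hget i hi]
  have hsplit : ∀ g ∈ ⋂ i, D i, {j ∈ S | g ∈ U j}.Infinite ∧ {j ∈ Sᶜ | g ∈ U j}.Infinite := by
    intro g hg
    constructor
    · refine Set.infinite_of_forall_exists_gt fun m => ?_
      have := (mem_iInter.1 hg (true, m + 1)).2
      obtain ⟨j, ⟨hj1, hj2⟩, hj3⟩ := mem_iUnion₂.1 this
      exact ⟨j, ⟨by simpa using hj2, hj3⟩, hj1⟩
    · refine Set.infinite_of_forall_exists_gt fun m => ?_
      have := (mem_iInter.1 hg (false, m + 1)).2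
      obtain ⟨j, ⟨hj1, hj2⟩, hj3⟩ := mem_iUnion₂.1 this
      exact ⟨j, ⟨by simpa using hj2, hj3⟩, hj1⟩
  refine ⟨S, ⋂ i, D i, ?_, IsGδ.iInter hDg, ?_, ?_, hsplit⟩
  · intro g hg
    exact (mem_iInter.1 hg (true, 0)).1
  · intro a ha
    refine mem_iInter.2 ?_
    rintro ⟨b, m⟩
    refine ⟨hAG ha, ?_⟩
    have h1 := hS (Sum.inr (⟨a, ha⟩, m))
    cases b
    · obtain ⟨j, hj, hmj, haj⟩ := h1.2
      exact mem_iUnion₂.2 ⟨j, ⟨hmj, by simpa using hj⟩, haj⟩
    · obtain ⟨j, hj, hmj, haj⟩ := h1.1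
      exact mem_iUnion₂.2 ⟨j, ⟨hmj, by simpa using hj⟩, haj⟩
  · intro C
    by_cases h : DenseBelow H Cᶜ
    · exact Or.inr h
    · obtain ⟨p, hp⟩ := (hZ C).1 h
      exact Or.inl (denseBelow_iInter hDg (hDd p C hp))

/-- The approximations of the construction. -/
structure State where
  A : Set K
  B : Set K
  G : Set K
  H : Set K
  cA : A.Countable
  cB : B.Countable
  hAG : A ⊆ G
  hBH : B ⊆ H
  gG : IsGδ G
  gH : IsGδ H
  inv : Inv G H

/-- Extension of approximations. -/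
def Ext (p q : State) : Prop := p.A ⊆ q.A ∧ p.B ⊆ q.B ∧ q.G ⊆ p.G ∧ q.H ⊆ p.H

theorem Ext.refl (p : State) : Ext p p := ⟨Subset.rfl, Subset.rfl, Subset.rfl, Subset.rfl⟩

theorem Ext.trans {p q r : State} (h : Ext p q) (h' : Ext q r) : Ext p r :=
  ⟨h.1.trans h'.1, h.2.1.trans h'.2.1, h'.2.2.1.trans h.2.2.1, h'.2.2.2.trans h.2.2.2⟩

theorem exists_upper (s : ℕ → State) (hs : ∀ i j, Ext (s i) (s j) ∨ Ext (s j) (s i)) :
    ∃ q : State, ∀ i, Ext (s i) q := by
  refine ⟨⟨⋃ i, (s i).A, ⋃ i, (s i).B, ⋂ i, (s i).G, ⋂ i, (s i).H,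
    countable_iUnion fun i => (s i).cA, countable_iUnion fun i => (s i).cB, ?_, ?_,
    IsGδ.iInter fun i => (s i).gG, IsGδ.iInter fun i => (s i).gH, ?_⟩, ?_⟩
  · refine iUnion_subset fun i => subset_iInter fun j => ?_
    rcases hs i j with h | h
    · exact h.1.trans (s j).hAG
    · exact (s i).hAG.trans h.2.2.1
  · refine iUnion_subset fun i => subset_iInter fun j => ?_
    rcases hs i j with h | h
    · exact h.2.1.trans (s j).hBH
    · exact (s i).hBH.trans h.2.2.2
  · refine inv_iInter (fun i => (s i).gG) (fun i => (s i).gH) (fun i => (s i).inv) ?_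
    intro i j
    rcases hs i j with h | h
    · exact Or.inr ⟨h.2.2.1, h.2.2.2⟩
    · exact Or.inl ⟨h.2.2.1, h.2.2.2⟩
  · intro i
    exact ⟨subset_iUnion (fun i => (s i).A) i, subset_iUnion (fun i => (s i).B) i,
      iInter_subset (fun i => (s i).G) i, iInter_subset (fun i => (s i).H) i⟩

/-- Exchange of the two sides. -/
def State.swap (p : State) : State :=
  ⟨p.B, p.A, p.H, p.G, p.cB, p.cA, p.hBH, p.hAG, p.gH, p.gG, p.inv.symm⟩

theorem Ext.swap {p q : State} (h : Ext p q) : Ext p.swap q.swap :=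
  ⟨h.2.1, h.1, h.2.2.2, h.2.2.1⟩

/-- Task one: no separation by `C`. -/
def DoneC (C : K) (p : State) : Prop := (∃ a ∈ p.A, a ≤ C) ∨ ∃ b ∈ p.B, b ≤ Cᶜ

/-- Task two: the sequence `U` of open sets is not large or is split. -/
def DoneU (U : ℕ → Set K) (p : State) : Prop :=
  (∃ a ∈ p.A, ¬ {j | a ∈ U j}.Infinite) ∨
    ∃ S : Set ℕ, ∀ g ∈ p.G, {j ∈ S | g ∈ U j}.Infinite ∧ {j ∈ Sᶜ | g ∈ U j}.Infinite

theorem DoneC.mono {C : K} {p q : State} (h : DoneC C p) (hpq : Ext p q) : DoneC C q := by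
  rcases h with ⟨a, ha, h⟩ | ⟨a, ha, h⟩
  · exact Or.inl ⟨a, hpq.1 ha, h⟩
  · exact Or.inr ⟨a, hpq.2.1 ha, h⟩

theorem DoneU.mono {U : ℕ → Set K} {p q : State} (h : DoneU U p) (hpq : Ext p q) :
    DoneU U q := by
  rcases h with ⟨a, ha, h⟩ | ⟨S, h⟩
  · exact Or.inl ⟨a, hpq.1 ha, h⟩
  · exact Or.inr ⟨S, fun g hg => h g (hpq.2.2.1 hg)⟩

theorem exists_add (p : State) {a : K} (ha : a ∈ p.G) : ∃ q, Ext p q ∧ a ∈ q.A :=
  ⟨⟨insert a p.A, p.B, p.G, p.H, p.cA.insert a, p.cB, insert_subset ha p.hAG, p.hBH, p.gG, p.gH,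
    p.inv⟩, ⟨subset_insert _ _, Subset.rfl, Subset.rfl, Subset.rfl⟩, mem_insert _ _⟩

theorem exists_doneC (C : K) (p : State) : ∃ q, Ext p q ∧ DoneC C q := by
  rcases p.inv C with h | h
  · obtain ⟨g, hg, hgC, -⟩ := h C le_rfl 0
    obtain ⟨q, hq, hgq⟩ := exists_add p hg
    exact ⟨q, hq, Or.inl ⟨g, hgq, hgC⟩⟩
  · obtain ⟨g, hg, hgC, -⟩ := h Cᶜ le_rfl 0
    obtain ⟨q, hq, hgq⟩ := exists_add p.swap (a := g) hg
    exact ⟨q.swap, hq.swap, Or.inr ⟨g, hgq, hgC⟩⟩

theorem exists_doneU {U : ℕ → Set K} (hU : ∀ j, IsOpen (U j)) (p : State) :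
    ∃ q, Ext p q ∧ DoneU U q := by
  by_cases h : ∀ g ∈ p.G, {j | g ∈ U j}.Infinite
  · obtain ⟨S, G', hG', hGδ, hA, hinv, hS⟩ :=
      exists_split_step p.gG p.gH p.inv p.cA p.hAG hU h
    exact ⟨⟨p.A, p.B, G', p.H, p.cA, p.cB, hA, p.hBH, hGδ, p.gH, hinv⟩,
      ⟨Subset.rfl, Subset.rfl, hG', Subset.rfl⟩, Or.inr ⟨S, hS⟩⟩
  · push Not at h
    obtain ⟨g, hg, hgU⟩ := h
    obtain ⟨q, hq, hgq⟩ := exists_add p hg
    exact ⟨q, hq, Or.inl ⟨g, hgq, Set.not_infinite.2 hgU⟩⟩

/-- The sequence of open sets coded by a set of pairs. -/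
def coded (c : Set (ℕ × List Bool)) (j : ℕ) : Set K := {x | ∃ q, (j, q) ∈ c ∧ Agrees x q}

theorem isOpen_coded (c : Set (ℕ × List Bool)) (j : ℕ) : IsOpen (coded c j) := by
  rw [isOpen_iff_forall_mem_open]
  rintro x ⟨q, hq, hx⟩
  refine ⟨{y : K | ∀ m < q.length, y m = x m}, ?_, isOpen_cyl x _, fun m _ => rfl⟩
  intro y hy
  exact ⟨q, hq, fun i hi => (hy i hi).trans (hx i hi)⟩

theorem exists_code {U : ℕ → Set K} (hU : ∀ j, IsOpen (U j)) : ∃ c, coded c = U := by
  refine ⟨{p | {x | Agrees x p.2} ⊆ U p.1}, ?_⟩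
  funext j
  ext x
  constructor
  · rintro ⟨q, hq, hx⟩
    exact hq hx
  · intro hx
    obtain ⟨n, hn⟩ := exists_cyl_subset (hU j) hx
    have hlen : (List.ofFn fun i : Fin n => x i).length = n := List.length_ofFn
    have hget : ∀ i < n, (List.ofFn fun i : Fin n => x i).getD i false = x i := by
      intro i hi
      simp [List.getD_eq_getElem?_getD, hi]
    refine ⟨List.ofFn fun i : Fin n => x i, ?_, ?_⟩
    · intro y hy
      refine hn y fun m hm => ?_
      rw [hy m (by rw [hlen]; exact hm), hget m hm]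
    · intro i hi
      rw [hlen] at hi
      rw [hget i hi]

/-- All tasks attached to a code. -/
def Done (t : K × Set (ℕ × List Bool)) (p : State) : Prop :=
  DoneC t.1 p ∧ DoneU (coded t.2) p ∧ DoneU (coded t.2) p.swap

theorem exists_done (t : K × Set (ℕ × List Bool)) (p : State) : ∃ q, Ext p q ∧ Done t q := by
  obtain ⟨q1, h1, h1'⟩ := exists_doneC t.1 p
  obtain ⟨q2, h2, h2'⟩ := exists_doneU (isOpen_coded t.2) q1
  obtain ⟨q3, h3, h3'⟩ := exists_doneU (isOpen_coded t.2) q2.swap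
  have h4 : Ext q2 q3.swap := h3.swap
  exact ⟨q3.swap, (h1.trans h2).trans h4, (h1'.mono h2).mono h4, h2'.mono h4, h3'⟩

/-- The index set `ω₁`: the well-ordered type of all countable ordinals. -/
abbrev OmegaOne : Type := (ω₁ : Ordinal.{0}).ToType

theorem mk_omegaOne : #OmegaOne = ℵ₁ := by
  rw [OmegaOne, mk_toType, card_omega]

theorem countable_Iio (z : OmegaOne) : (Set.Iio z).Countable := by
  have h : #(Set.Iio z) < #OmegaOne := by
    refine mk_Iio_lt z ?_
    rw [mk_omegaOne, ord_aleph, type_toType]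
  rwa [mk_omegaOne, lt_aleph_one_iff, le_aleph0_iff_set_countable] at h

/-- Transfinite iteration of length `ω₁`. -/
theorem exists_iteration (p₀ : State) (D : OmegaOne → State → Prop)
    (hD : ∀ i p, ∃ q, Ext p q ∧ D i q) :
    ∃ f : OmegaOne → State, (∀ i, Ext p₀ (f i)) ∧ (∀ i j, i ≤ j → Ext (f i) (f j)) ∧
      ∀ i, D i (f i) := by
  classical
  have hwf : WellFounded (fun i j : OmegaOne => i < j) := wellFounded_lt
  let step : (i : OmegaOne) → ((j : OmegaOne) → j < i → State) → State := fun i g =>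
    if h : ∃ q, Ext p₀ q ∧ (∀ j (hj : j < i), Ext (g j hj) q) ∧ D i q then h.choose else p₀
  let f : OmegaOne → State := hwf.fix step
  have hf : ∀ i, f i = step i (fun j _ => f j) := fun i => hwf.fix_eq step i
  have key : ∀ i, Ext p₀ (f i) ∧ (∀ j < i, Ext (f j) (f i)) ∧ D i (f i) := by
    intro i
    induction i using hwf.induction with
    | _ i ih =>
      have hex : ∃ q, Ext p₀ q ∧ (∀ j (_ : j < i), Ext (f j) q) ∧ D i q := by
        have hb : ∃ q, Ext p₀ q ∧ ∀ j (_ : j < i), Ext (f j) q := by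
          rcases (Set.Iio i).eq_empty_or_nonempty with he | hne
          · refine ⟨p₀, Ext.refl _, fun j hj => ?_⟩
            exact absurd (show j ∈ Set.Iio i from hj) (by rw [he]; exact Set.notMem_empty j)
          · obtain ⟨e, he⟩ := (countable_Iio i).exists_eq_range hne
            have hei : ∀ n, e n < i := fun n => by
              have : e n ∈ Set.Iio i := he ▸ mem_range_self n
              exact this
            obtain ⟨q, hq⟩ := exists_upper (fun n => f (e n)) (by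
              intro n m
              rcases lt_trichotomy (e n) (e m) with h | h | h
              · exact Or.inl ((ih (e m) (hei m)).2.1 _ h)
              · left
                show Ext (f (e n)) (f (e m))
                rw [h]
                exact Ext.refl _
              · exact Or.inr ((ih (e n) (hei n)).2.1 _ h))
            refine ⟨q, (ih (e 0) (hei 0)).1.trans (hq 0), fun j hj => ?_⟩
            have : j ∈ Set.range e := he ▸ hj
            obtain ⟨n, rfl⟩ := this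
            exact hq n
        obtain ⟨q, hq1, hq2⟩ := hb
        obtain ⟨r, hr1, hr2⟩ := hD i q
        exact ⟨r, hq1.trans hr1, fun j hj => (hq2 j hj).trans hr1, hr2⟩
      have h1 : f i = hex.choose := by
        rw [hf i]
        exact dif_pos hex
      rw [h1]
      exact hex.choose_spec
  refine ⟨f, fun i => (key i).1, fun i j hij => ?_, fun i => (key i).2.2⟩
  rcases hij.lt_or_eq with h | h
  · exact (key j).2.1 i h
  · rw [h]
    exact Ext.refl _

/-- The initial approximation. -/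
theorem exists_initial : ∃ p : State, (∀ g ∈ p.G, {n | g n = true}.Infinite) ∧
    (∀ g ∈ p.H, {n | g n = true}.Infinite) ∧
    ∀ n m, n ≠ m → ∃ a ∈ p.A, a n = true ∧ a m = false := by
  classical
  let G₀ : Set K := {g | {n | g n = true}.Infinite}
  have hG₀ : IsGδ G₀ := by
    have : G₀ = ⋂ m : ℕ, {g : K | ∃ n, m < n ∧ g n = true} := by
      ext g
      simp only [G₀, mem_iInter]
      constructor
      · intro h m
        obtain ⟨n, hn, hmn⟩ := h.exists_gt m
        exact ⟨n, hmn, hn⟩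
      · intro h
        refine Set.infinite_of_forall_exists_gt fun m => ?_
        obtain ⟨n, hmn, hn⟩ := h m
        exact ⟨n, hn, hmn⟩
    rw [this]
    refine IsGδ.iInter fun m => IsOpen.isGδ ?_
    have : {g : K | ∃ n, m < n ∧ g n = true} = ⋃ n ∈ {n | m < n}, {g : K | g n = true} := by
      ext g
      simp
    rw [this]
    refine isOpen_biUnion fun n _ => ?_
    exact (isOpen_discrete ({true} : Set Bool)).preimage (continuous_apply (A := fun _ => Bool) n)
  have hdense : ∀ C : K, {n | C n = true}.Infinite → DenseBelow G₀ C := by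
    intro C hC a ha n
    refine ⟨fun i => if i < n then a i else C i, ?_, ?_, ?_⟩
    · refine Set.infinite_of_forall_exists_gt fun m => ?_
      obtain ⟨k, hk, hmk⟩ := hC.exists_gt (max m n)
      refine ⟨k, ?_, lt_of_le_of_lt (le_max_left _ _) hmk⟩
      have : ¬ k < n := not_lt.2 ((le_max_right m n).trans hmk.le)
      show (if k < n then a k else C k) = true
      rw [if_neg this]
      exact hk
    · intro i
      by_cases hi : i < n
      · simp only [hi, if_true]
        exact ha i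
      · simp only [hi, if_false]
        exact le_rfl
    · intro m hm
      simp only [hm, if_true]
  have hinv : Inv G₀ G₀ := by
    intro C
    by_cases h : {n | C n = true}.Infinite
    · exact Or.inl (hdense C h)
    · right
      apply hdense
      have h1 : {n | Cᶜ n = true} = {n | C n = true}ᶜ := by
        ext n
        simp [Pi.compl_apply]
      rw [h1]
      exact (Set.not_infinite.1 h).infinite_compl
  let A₀ : Set K := Set.range fun p : ℕ × ℕ => fun k => decide (k = p.1 ∨ max p.1 p.2 < k)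
  have hA₀ : A₀ ⊆ G₀ := by
    rintro _ ⟨⟨n, m⟩, rfl⟩
    refine Set.infinite_of_forall_exists_gt fun l => ?_
    refine ⟨max l (max n m) + 1, ?_, ?_⟩
    · simp only [mem_ofPred_eq, decide_eq_true_eq]
      right
      exact Nat.lt_succ_of_le (le_max_right _ _)
    · exact Nat.lt_succ_of_le (le_max_left _ _)
  refine ⟨⟨A₀, ∅, G₀, G₀, countable_range _, countable_empty, hA₀, empty_subset _, hG₀, hG₀, hinv⟩,
    fun g hg => hg, fun g hg => hg, fun n m hnm => ?_⟩
  refine ⟨_, ⟨(n, m), rfl⟩, ?_, ?_⟩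
  · simp
  · simp only [decide_eq_false_iff_not, not_or, not_lt]
    exact ⟨fun h => hnm h.symm, le_max_right _ _⟩

/-- The two families of infinite sets. -/
theorem exists_families (CH : (𝔠 : Cardinal.{0}) ≤ ℵ₁) :
    ∃ X Y : Set K, (∀ x ∈ X ∪ Y, {n | x n = true}.Infinite) ∧
      (∀ n m, n ≠ m → ∃ a ∈ X, a n = true ∧ a m = false) ∧
      (∀ C : K, (∃ a ∈ X, a ≤ C) ∨ ∃ b ∈ Y, b ≤ Cᶜ) ∧
      (∀ U : ℕ → Set K, (∀ j, IsOpen (U j)) → (∀ x ∈ X, {j | x ∈ U j}.Infinite) →
        ∃ S : Set ℕ, ∀ x ∈ X, {j ∈ S | x ∈ U j}.Infinite ∧ {j ∈ Sᶜ | x ∈ U j}.Infinite) ∧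
      (∀ U : ℕ → Set K, (∀ j, IsOpen (U j)) → (∀ x ∈ Y, {j | x ∈ U j}.Infinite) →
        ∃ S : Set ℕ, ∀ x ∈ Y, {j ∈ S | x ∈ U j}.Infinite ∧ {j ∈ Sᶜ | x ∈ U j}.Infinite) := by
  classical
  obtain ⟨p₀, hp1, hp2, hp3⟩ := exists_initial
  -- enumeration of the tasks
  have hcard : #(K × Set (ℕ × List Bool)) ≤ #OmegaOne := by
    rw [mk_omegaOne]
    refine le_trans ?_ CH
    have h1 : #K = 𝔠 := by
      simp [K]
    have h2 : #(Set (ℕ × List Bool)) = 𝔠 := by
      rw [mk_set, mk_eq_aleph0 (ℕ × List Bool), two_power_aleph0]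
    rw [mk_prod, Cardinal.lift_id, Cardinal.lift_id, h1, h2, continuum_mul_self]
  have hne : Nonempty (K × Set (ℕ × List Bool)) := ⟨(fun _ => false, ∅)⟩
  obtain ⟨j⟩ := hcard
  let t : OmegaOne → K × Set (ℕ × List Bool) := Function.invFun j
  have ht : Function.Surjective t := Function.invFun_surjective j.injective
  obtain ⟨f, hf0, hfm, hfD⟩ := exists_iteration p₀ (fun i p => Done (t i) p)
    (fun i p => exists_done (t i) p)
  have hI : Nonempty OmegaOne := by
    rw [← mk_ne_zero_iff, mk_omegaOne]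
    exact (aleph_pos 1).ne'
  obtain ⟨i0⟩ := hI
  have hAG : ∀ i k, (f i).A ⊆ (f k).G := by
    intro i k
    rcases le_total i k with h | h
    · exact (hfm i k h).1.trans (f k).hAG
    · exact (f i).hAG.trans (hfm k i h).2.2.1
  have hBH : ∀ i k, (f i).B ⊆ (f k).H := by
    intro i k
    rcases le_total i k with h | h
    · exact (hfm i k h).2.1.trans (f k).hBH
    · exact (f i).hBH.trans (hfm k i h).2.2.2
  refine ⟨⋃ i, (f i).A, ⋃ i, (f i).B, ?_, ?_, ?_, ?_, ?_⟩
  · rintro x (hx | hx)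
    · obtain ⟨i, hi⟩ := mem_iUnion.1 hx
      exact hp1 x ((hf0 i).2.2.1 ((f i).hAG hi))
    · obtain ⟨i, hi⟩ := mem_iUnion.1 hx
      exact hp2 x ((hf0 i).2.2.2 ((f i).hBH hi))
  · intro n m hnm
    obtain ⟨a, ha, h⟩ := hp3 n m hnm
    exact ⟨a, mem_iUnion.2 ⟨i0, (hf0 i0).1 ha⟩, h⟩
  · intro C
    obtain ⟨i, hi⟩ := ht (C, ∅)
    have h1 : DoneC C (f i) := by
      have := (hfD i).1
      rwa [hi] at this
    rcases h1 with ⟨a, ha, h⟩ | ⟨a, ha, h⟩
    · exact Or.inl ⟨a, mem_iUnion.2 ⟨i, ha⟩, h⟩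
    · exact Or.inr ⟨a, mem_iUnion.2 ⟨i, ha⟩, h⟩
  · intro U hU hlarge
    obtain ⟨c, rfl⟩ := exists_code hU
    obtain ⟨i, hi⟩ := ht (fun _ => false, c)
    have h1 : DoneU (coded c) (f i) := by
      have := (hfD i).2.1
      rwa [hi] at this
    rcases h1 with ⟨a, ha, h⟩ | ⟨S, hS⟩
    · exact absurd (hlarge a (mem_iUnion.2 ⟨i, ha⟩)) h
    · refine ⟨S, fun x hx => ?_⟩
      obtain ⟨k, hk⟩ := mem_iUnion.1 hx
      exact hS x (hAG k i hk)
  · intro U hU hlarge
    obtain ⟨c, rfl⟩ := exists_code hU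
    obtain ⟨i, hi⟩ := ht (fun _ => false, c)
    have h1 : DoneU (coded c) (f i).swap := by
      have := (hfD i).2.2
      rwa [hi] at this
    rcases h1 with ⟨a, ha, h⟩ | ⟨S, hS⟩
    · exact absurd (hlarge a (mem_iUnion.2 ⟨i, ha⟩)) h
    · refine ⟨S, fun x hx => ?_⟩
      obtain ⟨k, hk⟩ := mem_iUnion.1 hx
      exact hS x (hBH k i hk)

/-- A set of reals obtained from a family with the splitting property satisfies Split(Λ,Λ). -/
theorem splitLL_image {e : K → ℝ} (he : Topology.IsEmbedding e) {X : Set K}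
    (hX : ∀ U : ℕ → Set K, (∀ j, IsOpen (U j)) → (∀ x ∈ X, {j | x ∈ U j}.Infinite) →
        ∃ S : Set ℕ, ∀ x ∈ X, {j ∈ S | x ∈ U j}.Infinite ∧ {j ∈ Sᶜ | x ∈ U j}.Infinite) :
    SplitLL (e '' X) := by
  classical
  intro 𝒰 h𝒰
  rcases isEmpty_or_nonempty (e '' X) with hemp | ⟨⟨y0⟩⟩
  · refine ⟨𝒰, ∅, Subset.rfl, empty_subset _, by simp, h𝒰, ?_, ?_,
      fun z => (hemp.false z).elim⟩
    · simp
    · simp
  obtain ⟨𝒰', hsub, hcount, hlarge⟩ := exists_countable_large h𝒰
  have hinf : 𝒰'.Infinite := (hlarge.2.2 y0).mono (fun U hU => hU.1)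
  obtain ⟨V, hVinj, hVr⟩ : ∃ V : ℕ → Set (e '' X), Function.Injective V ∧ Set.range V = 𝒰' := by
    have : Infinite 𝒰' := hinf.to_subtype
    have : Countable 𝒰' := hcount.to_subtype
    obtain ⟨E⟩ := nonempty_equiv_of_countable (α := ℕ) (β := 𝒰')
    refine ⟨fun n => (E n : Set (e '' X)), fun n m h => E.injective (Subtype.ext h), ?_⟩
    ext W
    constructor
    · rintro ⟨n, rfl⟩
      exact (E n).2
    · intro hW
      exact ⟨E.symm ⟨W, hW⟩, by simp⟩
  have hVinf : ∀ z, {n | z ∈ V n}.Infinite := by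
    intro z
    refine Set.Infinite.of_image V ((hlarge.2.2 z).mono ?_)
    rintro W ⟨hW, hz⟩
    obtain ⟨n, rfl⟩ : W ∈ Set.range V := hVr ▸ hW
    exact ⟨n, hz, rfl⟩
  have hVo : ∀ n, IsOpen (V n) := fun n => hlarge.1 _ (hVr ▸ ⟨n, rfl⟩)
  -- open sets of the Cantor space
  have hUex : ∀ n, ∃ U : Set K, IsOpen U ∧ ∀ x (hx : x ∈ X), x ∈ U ↔
      (⟨e x, x, hx, rfl⟩ : e '' X) ∈ V n := by
    intro n
    obtain ⟨W, hW, hWV⟩ := isOpen_induced_iff.1 (hVo n)
    refine ⟨e ⁻¹' W, hW.preimage he.continuous, fun x hx => ?_⟩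
    rw [← hWV]
    exact Iff.rfl
  choose U hUo hU using hUex
  obtain ⟨S, hS⟩ := hX U hUo (by
    intro x hx
    refine (hVinf ⟨e x, x, hx, rfl⟩).mono fun n hn => ?_
    exact (hU n x hx).2 hn)
  have hS' : ∀ z : e '' X, {n ∈ S | z ∈ V n}.Infinite ∧ {n ∈ Sᶜ | z ∈ V n}.Infinite := by
    rintro ⟨_, x, hx, rfl⟩
    obtain ⟨h1, h2⟩ := hS x hx
    exact ⟨h1.mono fun n hn => ⟨hn.1, (hU n x hx).1 hn.2⟩,
      h2.mono fun n hn => ⟨hn.1, (hU n x hx).1 hn.2⟩⟩
  refine ⟨V '' S, 𝒰 \ (V '' S), ?_, sdiff_subset, disjoint_sdiff_right, ?_, ?_⟩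
  · rintro _ ⟨n, _, rfl⟩
    exact hsub (hVr ▸ ⟨n, rfl⟩)
  · refine ⟨?_, ?_, ?_⟩
    · rintro _ ⟨n, _, rfl⟩
      exact hVo n
    · rintro ⟨n, _, hn⟩
      exact hlarge.2.1 (hVr ▸ ⟨n, hn⟩)
    · intro y
      refine ((hS' y).1.image hVinj.injOn).mono ?_
      rintro _ ⟨n, ⟨hn1, hn2⟩, rfl⟩
      exact ⟨⟨n, hn1, rfl⟩, hn2⟩
  · refine ⟨fun W hW => h𝒰.1 W hW.1, fun h => h𝒰.2.1 h.1, fun y => ?_⟩
    refine ((hS' y).2.image hVinj.injOn).mono ?_
    rintro _ ⟨n, ⟨hn1, hn2⟩, rfl⟩
    refine ⟨⟨hsub (hVr ▸ ⟨n, rfl⟩), ?_⟩, hn2⟩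
    rintro ⟨n', hn', hnn'⟩
    exact hn1 (hVinj hnn' ▸ hn')

/-- A reaping family, viewed as a set of reals, does not satisfy Split(Λ,Λ). -/
theorem not_splitLL_image {e : K → ℝ} (he : Topology.IsEmbedding e) {Z : Set K}
    (hinf : ∀ x ∈ Z, {n | x n = true}.Infinite)
    (hsep : ∀ n m, n ≠ m → ∃ a ∈ Z, a n = true ∧ a m = false)
    (hreap : ∀ C : K, (∃ a ∈ Z, a ≤ C) ∨ ∃ b ∈ Z, b ≤ Cᶜ) : ¬ SplitLL (e '' Z) := by
  classical
  intro hsplit
  -- the cover
  let O : ℕ → Set (e '' Z) := fun n => {z | ∃ x ∈ Z, e x = z.1 ∧ x n = true}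
  have hOmem : ∀ (x : K) (hx : x ∈ Z) (n : ℕ), (⟨e x, x, hx, rfl⟩ : e '' Z) ∈ O n ↔ x n = true := by
    intro x hx n
    constructor
    · rintro ⟨y, hy, hyx, hyn⟩
      rw [← he.injective hyx]
      exact hyn
    · intro h
      exact ⟨x, hx, rfl, h⟩
  have hOo : ∀ n, IsOpen (O n) := by
    intro n
    have h1 : IsOpen {x : K | x n = true} :=
      (isOpen_discrete ({true} : Set Bool)).preimage (continuous_apply (A := fun _ => Bool) n)
    obtain ⟨W, hW, hWn⟩ := he.isInducing.isOpen_iff.1 h1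
    refine isOpen_induced_iff.2 ⟨W, hW, ?_⟩
    ext ⟨_, x, hx, rfl⟩
    rw [hOmem x hx n]
    have : x ∈ e ⁻¹' W ↔ x ∈ {x : K | x n = true} := by rw [hWn]
    exact this
  have hOinj : Function.Injective O := by
    intro n m h
    by_contra hnm
    obtain ⟨a, ha, h1, h2⟩ := hsep n m hnm
    have h3 := (hOmem a ha n).2 h1
    rw [h, hOmem a ha m, h2] at h3
    exact absurd h3 (by simp)
  have hOuniv : ∀ n, O n ≠ Set.univ := by
    intro n h
    obtain ⟨a, ha, _, h2⟩ := hsep (n + 1) n (by omega)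
    have h3 : (⟨e a, a, ha, rfl⟩ : e '' Z) ∈ O n := h ▸ mem_univ _
    rw [hOmem a ha n, h2] at h3
    exact absurd h3 (by simp)
  obtain ⟨𝒱, 𝒲, hVs, hWs, hdisj, hV, hW⟩ := hsplit (Set.range O) (by
    refine ⟨?_, ?_, ?_⟩
    · rintro _ ⟨n, rfl⟩
      exact hOo n
    · rintro ⟨n, hn⟩
      exact hOuniv n hn
    · rintro ⟨_, x, hx, rfl⟩
      refine ((hinf x hx).image hOinj.injOn).mono ?_
      rintro _ ⟨n, hn, rfl⟩
      exact ⟨⟨n, rfl⟩, (hOmem x hx n).2 hn⟩)
  have hVr : ∀ V ∈ 𝒱, ∃ n, O n = V := fun V hV1 => by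
    exact hVs hV1
  have hWr : ∀ V ∈ 𝒲, ∃ n, O n = V := fun V hV1 => by
    exact hWs hV1
  rcases hreap (fun n => decide (O n ∈ 𝒱)) with ⟨a, ha, hle⟩ | ⟨a, ha, hle⟩
  · obtain ⟨V, hV1, hV2⟩ := (hW.2.2 ⟨e a, a, ha, rfl⟩).nonempty
    obtain ⟨n, rfl⟩ := hWr V hV1
    have h1 : a n = true := (hOmem a ha n).1 hV2
    have h2 := hle n
    rw [h1] at h2
    have h3 : O n ∈ 𝒱 := by
      by_contra hcon
      simp [hcon] at h2
      exact Bool.false_ne_true (h2 rfl)
    exact Set.disjoint_left.1 hdisj h3 hV1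
  · obtain ⟨V, hV1, hV2⟩ := (hV.2.2 ⟨e a, a, ha, rfl⟩).nonempty
    obtain ⟨n, rfl⟩ := hVr V hV1
    have h1 : a n = true := (hOmem a ha n).1 hV2
    have h2 := hle n
    rw [h1] at h2
    simp [hV1] at h2
    exact Bool.false_ne_true (h2 rfl)

/-- Under CH there are two sets of reals with Split(Λ,Λ) whose union fails it. -/
theorem exists_counterexample (CH : (𝔠 : Cardinal.{0}) ≤ ℵ₁) :
    ∃ X Y : Set ℝ, SplitLL X ∧ SplitLL Y ∧ ¬ SplitLL (X ∪ Y) := by
  classical
  obtain ⟨X, Y, hinf, hsep, hreap, hX, hY⟩ := exists_families CH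
  let e : K → ℝ := fun x => (cantorSetHomeomorphNatToBool.symm x : ℝ)
  have he : Topology.IsEmbedding e :=
    Topology.IsEmbedding.subtypeVal.comp cantorSetHomeomorphNatToBool.symm.isEmbedding
  refine ⟨e '' X, e '' Y, splitLL_image he hX, splitLL_image he hY, ?_⟩
  rw [← image_union]
  refine not_splitLL_image he hinf ?_ ?_
  · intro n m hnm
    obtain ⟨a, ha, h⟩ := hsep n m hnm
    exact ⟨a, Or.inl ha, h⟩
  · intro C
    rcases hreap C with ⟨a, ha, h⟩ | ⟨a, ha, h⟩
    · exact Or.inl ⟨a, Or.inl ha, h⟩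
    · exact Or.inr ⟨a, Or.inr ha, h⟩

/-- **Main theorem.** The continuum hypothesis implies that there are countably many sets of
reals, all with the property Split(Λ,Λ), whose union does not have this property; two of them are
enough. -/
theorem result (CH : (𝔠 : Cardinal.{0}) = ℵ₁) :
    ∃ X : ℕ → Set ℝ, (∀ n, SplitLL (X n)) ∧ ¬ SplitLL (⋃ n, X n) ∧
      (⋃ n, X n) = X 0 ∪ X 1 := by
  classical
  obtain ⟨X, Y, hX, hY, hXY⟩ := exists_counterexample CH.le
  have h2 : (⋃ n : ℕ, (if n = 0 then X else Y)) = X ∪ Y := by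
    ext x
    simp only [mem_iUnion, mem_union]
    constructor
    · rintro ⟨n, hn⟩
      by_cases h0 : n = 0
      · left
        simpa only [h0, if_true] using hn
      · right
        simpa only [h0, if_false] using hn
    · rintro (hx | hx)
      · exact ⟨0, by simpa using hx⟩
      · exact ⟨1, by simpa using hx⟩
  refine ⟨fun n => if n = 0 then X else Y, ?_, ?_, ?_⟩
  · intro n
    by_cases hn : n = 0
    · simpa only [hn, if_true] using hX
    · simpa only [hn, if_false] using hY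
  · rw [h2]
    exact hXY
  · rw [h2]
    simp

end Pool.Agent.Results.MP_674062_gt.CounterexampleUnderCH
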